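import Pool.Agent.Helper521.OrderedTransversals

set_option autoImplicit false

namespace Pool.Agent.Results.MP_b157f3_co.NoFiniteHelly

open Pool.Agent.Helper521.OrderedTransversals

/-- For every `d = n + 1 ≥ 3`: there are arbitrarily large ordered families such that every proper
subfamily, but not the whole family, is met consistently by an oriented hyperplane, and hence no
finite `h` has the defining property of `h(d)`. -/
theorem result : ∀ n : ℕ, 2 ≤ n →
    (∀ N : ℕ, ∃ (ι : Type) (_ : Fintype ι) (a : ι → Set (Fin (n + 1) → ℝ)) (p : ι → Fin n → ℝ),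
      N ≤ Fintype.card ι ∧ IsFamily a ∧ GeneralPosition p ∧
      (∀ B : Finset ι, B ≠ Finset.univ → MetConsistently a p B) ∧
      ¬ MetConsistently a p Finset.univ) ∧
    ∀ h : ℕ, ¬ HellyNumber n h :=
  fun n hn => ⟨fun N => critical_families n N hn, fun h => not_hellyNumber n h hn⟩

end Pool.Agent.Results.MP_b157f3_co.NoFiniteHelly
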